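import Mathlib

/-!
MS-measurable structures (Macpherson, Steinhorn), and an obstruction: a measurable structure is not
the disjoint union of two definable sets which are in definable bijection with it.
-/

set_option autoImplicit false

namespace Pool.Agent.X223.MS

open FirstOrder FirstOrder.Language Set

universe u v w

variable (L : FirstOrder.Language.{u, v}) (M : Type w) [L.Structure M]

/-- `f` is a definable map (with parameters) of the definable set `X` onto the definable
set `Y`. -/
structure DefinableOnto {n m : ℕ} (X : Set (Fin n → M)) (Y : Set (Fin m → M))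
    (f : (Fin n → M) → (Fin m → M)) : Prop where
  source : (univ : Set M).Definable L X
  target : (univ : Set M).Definable L Y
  onto : f '' X = Y
  graph : (univ : Set M).Definable L
    {z : Fin n ⊕ Fin m → M | (fun i => z (Sum.inl i)) ∈ X ∧
      f (fun i => z (Sum.inl i)) = fun j => z (Sum.inr j)}

/-- The Fubini condition for the map `f` of `X` onto `Y`: the set `Y` has a finite partition into
nonempty definable sets `P i` over which the fibres have constant value `val i`, and if `c` is
the largest of the numbers `(val i).1 + (h (P i)).1`, then `h X` is `c` together with the sum of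
`(val i).2 * (h (P i)).2` over all `i` with `(val i).1 + (h (P i)).1 = c`. -/
def Fubini (h : (n : ℕ) → Set (Fin n → M) → ℕ × ℝ) {n m : ℕ} (X : Set (Fin n → M))
    (Y : Set (Fin m → M)) (f : (Fin n → M) → (Fin m → M)) : Prop :=
  ∃ (r : ℕ) (P : Fin r → Set (Fin m → M)) (val : Fin r → ℕ × ℝ) (c : ℕ),
    (∀ i, (P i).Nonempty ∧ (univ : Set M).Definable L (P i)) ∧
    (∀ i j, i ≠ j → Disjoint (P i) (P j)) ∧ (⋃ i, P i) = Y ∧
    (∀ i, ∀ y ∈ P i, h n {x | x ∈ X ∧ f x = y} = val i) ∧
    c = Finset.univ.sup (fun i => (val i).1 + (h m (P i)).1) ∧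
    h n X = (c, ∑ i with (val i).1 + (h m (P i)).1 = c, (val i).2 * (h m (P i)).2)

/-- The function `h` (only its values on definable subsets of `M ^ n` with `n ≥ 1` matter) is a
dimension and measure function in the sense of Macpherson and Steinhorn. -/
structure IsMeasuring (h : (n : ℕ) → Set (Fin n → M) → ℕ × ℝ) : Prop where
  /-- the values lie in `(ℕ × ℝ_{>0}) ∪ {(0, 0)}` -/
  values : ∀ (n : ℕ) (X : Set (Fin n → M)), 0 < n → (univ : Set M).Definable L X →
    h n X = (0, 0) ∨ 0 < (h n X).2
  /-- in a definable family there are finitely many values, each of them is taken on a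
  `∅`-definable set of parameters -/
  families : ∀ (n m : ℕ) (φ : L.Formula (Fin n ⊕ Fin m)), 0 < n →
    (range fun b : Fin m → M => h n {x | φ.Realize (Sum.elim x b)}).Finite ∧
    ∀ v : ℕ × ℝ, (∅ : Set M).Definable L
      {b : Fin m → M | h n {x | φ.Realize (Sum.elim x b)} = v}
  /-- finite sets -/
  finite : ∀ (n : ℕ) (X : Set (Fin n → M)), 0 < n → X.Finite → h n X = (0, (X.ncard : ℝ))
  /-- the Fubini condition -/
  fubini : ∀ (n m : ℕ) (X : Set (Fin n → M)) (Y : Set (Fin m → M))
    (f : (Fin n → M) → (Fin m → M)), 0 < n → 0 < m → DefinableOnto L M X Y f →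
      Fubini L M h X Y f

/-- The structure `M` is MS-measurable. -/
def MSMeasurable : Prop := ∃ h : (n : ℕ) → Set (Fin n → M) → ℕ × ℝ, IsMeasuring L M h

variable {L M}

/-- Definability of the set of the tuples with a given coordinate equal to a constant. -/
theorem definable_coord_eq {α : Type} (i : α) (a : M) :
    (univ : Set M).Definable L {z : α → M | z i = a} := by
  refine ⟨(Term.var i).equal (L.con (⟨a, mem_univ a⟩ : (univ : Set M))).term, ?_⟩
  ext z
  simp [Formula.realize_equal]

theorem definable_eq_const {α : Type} [Finite α] (a : α → M) :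
    (univ : Set M).Definable L {z : α → M | z = a} := by
  have : {z : α → M | z = a} = ⋂ i, {z : α → M | z i = a i} := by
    ext z
    rw [mem_iInter]
    exact ⟨fun h i => congrFun h i, fun h => funext h⟩
  rw [this]
  exact Set.definable_iInter_of_finite fun i => definable_coord_eq i (a i)

variable {h : (n : ℕ) → Set (Fin n → M) → ℕ × ℝ}

/-- Additivity for finite definable partitions. -/
theorem additive (H : IsMeasuring L M h) {n : ℕ} (hn : 0 < n) {X : Set (Fin n → M)} {ι : Type}
    [Fintype ι] (A : ι → Set (Fin n → M)) (hA : ∀ i, (A i).Nonempty)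
    (hA' : ∀ i, (univ : Set M).Definable L (A i)) (hd : ∀ i j, i ≠ j → Disjoint (A i) (A j))
    (hX : (⋃ i, A i) = X) (c : ℕ) (hc : c = Finset.univ.sup fun i => (h n (A i)).1) :
    h n X = (c, ∑ i with (h n (A i)).1 = c, (h n (A i)).2) := by
  classical
  subst hX
  choose a ha using hA
  have hai : ∀ i j, a i ∈ A j → i = j := by
    intro i j hij
    by_contra hne
    exact Set.disjoint_left.1 (hd i j hne) (ha i) hij
  have hainj : Function.Injective a := fun i j hij => hai i j (hij ▸ ha j)
  -- the map to the index points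
  let f : (Fin n → M) → (Fin n → M) := fun x =>
    if hx : ∃ i, x ∈ A i then a hx.choose else x
  have hf : ∀ i, ∀ x ∈ A i, f x = a i := by
    intro i x hx
    have hex : ∃ i, x ∈ A i := ⟨i, hx⟩
    have h1 : f x = a hex.choose := dif_pos hex
    have h2 : hex.choose = i := by
      by_contra hne
      exact Set.disjoint_left.1 (hd _ _ hne) hex.choose_spec hx
    rw [h1, h2]
  have honto : DefinableOnto L M (⋃ i, A i) (range a) f := by
    refine ⟨?_, ?_, ?_, ?_⟩
    · exact Set.definable_iUnion_of_finite hA'
    · have := Set.definable_iUnion_of_finite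
        (fun i => definable_eq_const (L := L) (a i))
      convert this using 1
      ext z
      rw [mem_iUnion]
      exact ⟨fun ⟨i, hi⟩ => ⟨i, hi.symm⟩, fun ⟨i, hi⟩ => ⟨i, hi.symm⟩⟩
    · ext y
      constructor
      · rintro ⟨x, hx, rfl⟩
        obtain ⟨i, hi⟩ := mem_iUnion.1 hx
        exact ⟨i, (hf i x hi).symm⟩
      · rintro ⟨i, rfl⟩
        exact ⟨a i, mem_iUnion.2 ⟨i, ha i⟩, hf i _ (ha i)⟩
    · have h1 : ∀ i, (univ : Set M).Definable L
          ({z : Fin n ⊕ Fin n → M | (fun j => z (Sum.inl j)) ∈ A i} ∩
            {z : Fin n ⊕ Fin n → M | (fun j => z (Sum.inr j)) = a i}) := by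
        intro i
        exact ((hA' i).preimage_comp Sum.inl).inter
          ((definable_eq_const (L := L) (a i)).preimage_comp Sum.inr)
      have := Set.definable_iUnion_of_finite h1
      convert this using 1
      ext z
      rw [mem_iUnion]
      constructor
      · rintro ⟨hx, hz⟩
        obtain ⟨i, hi⟩ := mem_iUnion.1 hx
        exact ⟨i, hi, by
          show (fun j => z (Sum.inr j)) = a i
          rw [← hz, hf i _ hi]⟩
      · rintro ⟨i, hi, hz⟩
        refine ⟨mem_iUnion.2 ⟨i, hi⟩, ?_⟩
        have hz' : (fun j => z (Sum.inr j)) = a i := hz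
        rw [hf i _ hi, hz']
  obtain ⟨r, P, val, c', hP, hPd, hPU, hval, hc', hh⟩ := H.fubini n n _ _ f hn hn honto
  -- the fibres
  have hfib : ∀ i, {x | x ∈ ⋃ i, A i ∧ f x = a i} = A i := by
    intro i
    ext x
    simp only [mem_ofPred_eq, mem_iUnion]
    constructor
    · rintro ⟨⟨j, hj⟩, hx⟩
      rw [hf j x hj] at hx
      rw [← hainj hx]
      exact hj
    · intro hx
      exact ⟨⟨i, hx⟩, hf i x hx⟩
  have hPsub : ∀ j, P j ⊆ range a := fun j => hPU ▸ subset_iUnion P j
  have hPfin : ∀ j, (P j).Finite := fun j => (finite_range a).subset (hPsub j)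
  have hPval : ∀ j, h n (P j) = (0, ((P j).ncard : ℝ)) := fun j => H.finite n _ hn (hPfin j)
  -- the index of the part
  have hex : ∀ i, ∃ j, a i ∈ P j := by
    intro i
    have : a i ∈ ⋃ j, P j := hPU ▸ mem_range_self i
    exact mem_iUnion.1 this
  choose p hp using hex
  have hpu : ∀ i j, a i ∈ P j → p i = j := by
    intro i j hij
    by_contra hne
    exact Set.disjoint_left.1 (hPd _ _ hne) (hp i) hij
  have hv : ∀ i, h n (A i) = val (p i) := by
    intro i
    rw [← hval (p i) (a i) (hp i), hfib]
  have hsurj : ∀ j, ∃ i, p i = j := by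
    intro j
    obtain ⟨y, hy⟩ := (hP j).1
    obtain ⟨i, rfl⟩ := hPsub j hy
    exact ⟨i, hpu i j hy⟩
  have hcc : c' = c := by
    rw [hc', hc]
    apply le_antisymm
    · refine Finset.sup_le fun j _ => ?_
      obtain ⟨i, rfl⟩ := hsurj j
      rw [hPval, add_zero, ← hv]
      exact Finset.le_sup (f := fun i => (h n (A i)).1) (Finset.mem_univ i)
    · refine Finset.sup_le fun i _ => ?_
      rw [hv]
      refine le_trans ?_ (Finset.le_sup (f := fun i => (val i).1 + (h n (P i)).1)
        (Finset.mem_univ (p i)))
      rw [hPval, add_zero]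
  rw [hh, hcc]
  refine Prod.ext rfl ?_
  show ∑ i with (val i).1 + (h n (P i)).1 = c, (val i).2 * (h n (P i)).2 =
    ∑ i with (h n (A i)).1 = c, (h n (A i)).2
  have e1 : ∀ j, ((P j).ncard : ℝ) = ∑ i with p i = j, (1 : ℝ) := by
    intro j
    rw [Finset.sum_const, nsmul_eq_mul, mul_one]
    congr 1
    have : P j = a '' {i | p i = j} := by
      ext y
      constructor
      · intro hy
        obtain ⟨i, rfl⟩ := hPsub j hy
        exact ⟨i, hpu i j hy, rfl⟩
      · rintro ⟨i, hi, rfl⟩
        have hi' : p i = j := hi
        rw [← hi']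
        exact hp i
    rw [this, Set.ncard_image_of_injective _ hainj]
    rw [← Set.ncard_coe_finset]
    congr 1
    ext i
    simp
  have e2 : ∀ j, (val j).1 + (h n (P j)).1 = (val j).1 := fun j => by rw [hPval, add_zero]
  have e3 : ∀ j, (h n (P j)).2 = ((P j).ncard : ℝ) := fun j => by rw [hPval]
  simp only [e2, e3, e1, Finset.mul_sum, mul_one]
  rw [Finset.sum_sigma']
  refine Finset.sum_bij (fun x _ => x.2) ?_ ?_ ?_ ?_
  · intro x hx
    simp only [Finset.mem_sigma, Finset.mem_filter, Finset.mem_univ, true_and] at hx ⊢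
    rw [hv, hx.2]
    exact hx.1
  · rintro ⟨j, i⟩ hx ⟨j', i'⟩ hx' heq
    simp only [Finset.mem_sigma, Finset.mem_filter, Finset.mem_univ, true_and] at hx hx' heq
    subst heq
    rw [← hx.2, ← hx'.2]
  · intro i hi
    simp only [Finset.mem_filter, Finset.mem_univ, true_and] at hi
    refine ⟨⟨p i, i⟩, ?_, rfl⟩
    simp only [Finset.mem_sigma, Finset.mem_filter, Finset.mem_univ, true_and, and_true]
    rw [← hv]
    exact hi
  · rintro ⟨j, i⟩ hx
    simp only [Finset.mem_sigma, Finset.mem_filter, Finset.mem_univ, true_and] at hx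
    show (val j).2 = (h n (A i)).2
    rw [hv, hx.2]

/-- A definable bijection of `X` onto `Y`: the value of `X` is computed by a finite partition
of `Y`. -/
theorem of_bij (H : IsMeasuring L M h) {n m : ℕ} (hn : 0 < n) (hm : 0 < m) {X : Set (Fin n → M)}
    {Y : Set (Fin m → M)} {f : (Fin n → M) → (Fin m → M)} (hf : DefinableOnto L M X Y f)
    (hinj : InjOn f X) : h n X = h m Y := by
  classical
  obtain ⟨r, P, val, c, hP, hPd, hPU, hval, hc, hh⟩ := H.fubini n m _ _ f hn hm hf
  have hv : ∀ i, val i = (0, 1) := by
    intro i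
    obtain ⟨y, hy⟩ := (hP i).1
    have hyY : y ∈ Y := hPU ▸ mem_iUnion.2 ⟨i, hy⟩
    rw [← hf.onto] at hyY
    obtain ⟨x, hx, rfl⟩ := hyY
    rw [← hval i _ hy]
    have : {x' | x' ∈ X ∧ f x' = f x} = {x} := by
      ext x'
      simp only [mem_ofPred_eq, mem_singleton_iff]
      constructor
      · rintro ⟨h1, h2⟩
        exact hinj h1 hx h2
      · rintro rfl
        exact ⟨hx, rfl⟩
    rw [this, H.finite n _ hn (finite_singleton x), ncard_singleton, Nat.cast_one]
  have h1 := additive H hm P (fun i => (hP i).1) (fun i => (hP i).2) hPd hPU c (by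
    rw [hc]
    congr 1
    ext i
    rw [hv, zero_add])
  rw [hh, h1]
  refine Prod.ext rfl ?_
  simp only [hv, zero_add, one_mul]

/-- The obstruction. -/
theorem not_measurable {E O : Set (Fin 1 → M)} {f g : (Fin 1 → M) → (Fin 1 → M)}
    (hf : DefinableOnto L M univ E f) (hg : DefinableOnto L M univ O g)
    (hfi : Function.Injective f) (hgi : Function.Injective g) (hd : Disjoint E O)
    (hU : E ∪ O = univ) [Nonempty M] : ¬ MSMeasurable L M := by
  classical
  rintro ⟨h, H⟩
  have h1 : h 1 univ = h 1 E := of_bij H one_pos one_pos hf hfi.injOn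
  have h2 : h 1 univ = h 1 O := of_bij H one_pos one_pos hg hgi.injOn
  have hEne : E.Nonempty := by
    rw [← hf.onto]
    exact univ_nonempty.image f
  have hOne : O.Nonempty := by
    rw [← hg.onto]
    exact univ_nonempty.image g
  have h3 := additive H one_pos (X := univ) (fun b : Bool => if b then E else O)
    (by
      rintro (_ | _)
      · exact hOne
      · exact hEne)
    (by
      rintro (_ | _)
      · exact hg.target
      · exact hf.target)
    (by
      rintro (_ | _) (_ | _) hne
      · exact absurd rfl hne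
      · exact hd.symm
      · exact hd
      · exact absurd rfl hne)
    (by
      rw [← hU]
      ext x
      simp only [mem_iUnion, Bool.exists_bool, mem_union]
      simp [or_comm]) (h 1 univ).1 (by
      rw [Fintype.univ_bool, Finset.sup_insert, Finset.sup_singleton]
      simp only [if_true, Bool.false_eq_true, if_false]
      rw [← h1, ← h2]
      simp)
  have h4 : (h 1 (univ : Set (Fin 1 → M))).2 = (h 1 (univ : Set (Fin 1 → M))).2 +
      (h 1 (univ : Set (Fin 1 → M))).2 := by
    conv_lhs => rw [h3]
    simp only
    rw [Fintype.univ_bool, Finset.filter_true_of_mem, Finset.sum_insert, Finset.sum_singleton]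
    · simp only [if_true, Bool.false_eq_true, if_false]
      rw [← h1, ← h2]
    · simp
    · rintro (_ | _) _
      · simp only [Bool.false_eq_true, if_false]
        rw [← h2]
      · simp only [if_true]
        rw [← h1]
  have h5 : (h 1 (univ : Set (Fin 1 → M))).2 = 0 := by linarith
  have h6 : h 1 (univ : Set (Fin 1 → M)) = (0, 0) := by
    rcases H.values 1 univ one_pos hf.source with h | h
    · exact h
    · rw [h5] at h
      exact absurd h (lt_irrefl _)
  -- a nonempty set has positive measure
  obtain ⟨x₀⟩ : Nonempty (Fin 1 → M) := inferInstance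
  by_cases hne : ({x₀}ᶜ : Set (Fin 1 → M)).Nonempty
  · have h7 := additive H one_pos (X := univ)
      (fun b : Bool => if b then {x₀} else ({x₀}ᶜ : Set (Fin 1 → M)))
      (by
        rintro (_ | _)
        · exact hne
        · exact singleton_nonempty x₀)
      (by
        rintro (_ | _)
        · exact (definable_eq_const x₀).compl
        · exact definable_eq_const x₀)
      (by
        rintro (_ | _) (_ | _) hne
        · exact absurd rfl hne
        · exact disjoint_compl_left
        · exact disjoint_compl_right
        · exact absurd rfl hne)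
      (by
        ext x
        simp only [mem_iUnion, Bool.exists_bool, mem_univ, iff_true]
        simp [em']) _ rfl
    rw [h6] at h7
    have h8 := congrArg Prod.fst h7
    have h9 := congrArg Prod.snd h7
    simp only at h8 h9
    rw [← h8] at h9
    have h10 : ∀ b : Bool, (h 1 (if b then {x₀} else ({x₀}ᶜ : Set (Fin 1 → M)))).1 = 0 := by
      intro b
      have := Finset.le_sup (f := fun b : Bool =>
        (h 1 (if b then {x₀} else ({x₀}ᶜ : Set (Fin 1 → M)))).1) (Finset.mem_univ b)
      rw [← h8] at this
      exact Nat.le_zero.1 this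
    rw [Finset.filter_true_of_mem (fun b _ => h10 b), Fintype.univ_bool, Finset.sum_insert,
      Finset.sum_singleton] at h9
    · simp only [if_true, Bool.false_eq_true, if_false] at h9
      rw [H.finite 1 {x₀} one_pos (finite_singleton x₀), ncard_singleton, Nat.cast_one] at h9
      rcases H.values 1 ({x₀}ᶜ) one_pos (definable_eq_const (L := L) x₀).compl with h11 | h11
      · rw [h11] at h9
        norm_num at h9
      · linarith
    · simp
  · rw [Set.not_nonempty_iff_eq_empty, compl_empty_iff] at hne
    rw [← hne, H.finite 1 {x₀} one_pos (finite_singleton x₀), ncard_singleton, Nat.cast_one] at h6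
    have := congrArg Prod.snd h6
    norm_num at this

end Pool.Agent.X223.MS
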