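import Pool.Agent.X223.MS.Gen

/-!
The theory of the integers with the square-free integers is not MS-measurable.
-/

set_option autoImplicit false

namespace Pool.Agent.X223.MS

open FirstOrder FirstOrder.Language Set

/-- The function symbols of the language: addition, opposite and the constant one. -/
inductive SqfFn : ℕ → Type
  /-- the constant `1` -/
  | one : SqfFn 0
  /-- the opposite -/
  | neg : SqfFn 1
  /-- the addition -/
  | add : SqfFn 2

/-- The relation symbols of the language: the unary `P m` for `m ≥ 1` and `U p l` for `p` prime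
and `l` an integer. -/
inductive SqfRel : ℕ → Type
  /-- the predicate `P m` -/
  | P (m : ℕ+) : SqfRel 1
  /-- the predicate `U p l` -/
  | U (p : Nat.Primes) (l : ℤ) : SqfRel 1

/-- The language `{+, -, 1, (P_m), (U_{p,l})}`. -/
def sqfLang : Language := ⟨SqfFn, SqfRel⟩

/-- The interpretation of `P m` in the integers: the `a` with `v_p(a) < 2 + v_p(m)` for all primes
`p`, i.e. such that no `p ^ (2 + v_p(m))` divides `a`. -/
def inP (m : ℕ+) (a : ℤ) : Prop :=
  ∀ p : ℕ, p.Prime → ¬ (p : ℤ) ^ (2 + padicValNat p m) ∣ a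

/-- The interpretation of `U p l` in the integers: the `a` with `v_p(a) ≥ l`; if `l` is negative
this is no condition, otherwise it says that `p ^ l` divides `a`. -/
def inU (p : Nat.Primes) (l : ℤ) (a : ℤ) : Prop := ((p : ℕ) : ℤ) ^ l.toNat ∣ a

/-- The integers as a structure for the language. -/
instance sqfInt : sqfLang.Structure ℤ where
  funMap := fun f x => SqfFn.casesOn (motive := fun n _ => (Fin n → ℤ) → ℤ) f
    (fun _ => 1) (fun x => - x 0) (fun x => x 0 + x 1) x
  RelMap := fun r x => SqfRel.casesOn (motive := fun n _ => (Fin n → ℤ) → Prop) r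
    (fun m x => inP m (x 0)) (fun p l x => inU p l (x 0)) x

/-- The complete theory `T_Sqf` of the integers in this language. -/
def TSqf : sqfLang.Theory := sqfLang.completeTheory ℤ

universe w

section model

variable {M : Type w} [sqfLang.Structure M]

/-- Addition in a structure. -/
def pl (x y : M) : M := Structure.funMap (L := sqfLang) SqfFn.add ![x, y]

/-- The constant one in a structure. -/
def on (M : Type w) [sqfLang.Structure M] : M := Structure.funMap (L := sqfLang) SqfFn.one ![]

/-- The term `x + y`. -/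
def tpl {α : Type} (s t : sqfLang.Term α) : sqfLang.Term α :=
  Term.func (L := sqfLang) (SqfFn.add : sqfLang.Functions 2) ![s, t]

/-- The term `1`. -/
def ton {α : Type} : sqfLang.Term α :=
  Term.func (L := sqfLang) (SqfFn.one : sqfLang.Functions 0) ![]

theorem realize_tpl {α : Type} (s t : sqfLang.Term α) (v : α → M) :
    (tpl s t).realize v = pl (s.realize v) (t.realize v) := by
  unfold tpl pl
  show Structure.funMap (L := sqfLang) SqfFn.add (fun i => (![s, t] i).realize v) = _
  congr 1
  ext i
  fin_cases i <;> rfl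

theorem realize_ton {α : Type} (v : α → M) : (ton : sqfLang.Term α).realize v = on M := by
  unfold ton on
  show Structure.funMap (L := sqfLang) SqfFn.one (fun i => Term.realize v (![] i)) = _
  congr 1
  ext i
  exact i.elim0

theorem definable_plain {α : Type} (φ : sqfLang.Formula α) :
    (univ : Set M).Definable sqfLang {v : α → M | φ.Realize v} := by
  have : (∅ : Set M).Definable sqfLang {v : α → M | φ.Realize v} := by
    rw [Set.empty_definable_iff]
    exact ⟨φ, rfl⟩
  exact this.mono (empty_subset _)

/-- The three sentences. -/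
noncomputable def s1 : sqfLang.Sentence := Formula.iAlls (α := Empty) (Fin 2)
  ((((tpl (Term.var (Sum.inr 0)) (Term.var (Sum.inr 0))).equal
    (tpl (Term.var (Sum.inr 1)) (Term.var (Sum.inr 1)))).imp
    ((Term.var (Sum.inr 0)).equal (Term.var (Sum.inr 1)))) : sqfLang.Formula (Empty ⊕ Fin 2))

/-- No element is both even and odd. -/
noncomputable def s2 : sqfLang.Sentence := Formula.iAlls (α := Empty) (Fin 2)
  (((tpl (Term.var (Sum.inr 0)) (Term.var (Sum.inr 0))).equal
    (tpl (tpl (Term.var (Sum.inr 1)) (Term.var (Sum.inr 1))) ton)).not :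
      sqfLang.Formula (Empty ⊕ Fin 2))

/-- Adding one is injective on even elements. -/
noncomputable def s3 : sqfLang.Sentence := Formula.iAlls (α := Empty) (Fin 2)
  ((((tpl (tpl (Term.var (Sum.inr 0)) (Term.var (Sum.inr 0))) ton).equal
    (tpl (tpl (Term.var (Sum.inr 1)) (Term.var (Sum.inr 1))) ton)).imp
    ((Term.var (Sum.inr 0)).equal (Term.var (Sum.inr 1)))) : sqfLang.Formula (Empty ⊕ Fin 2))

/-- Every element is even or odd. -/
noncomputable def s4 : sqfLang.Sentence := Formula.iAlls (α := Empty) (Fin 1)
  (Formula.iExs (α := Empty ⊕ Fin 1) (Fin 1)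
    (((Term.var (Sum.inl (Sum.inr 0))).equal
        (tpl (Term.var (Sum.inr 0)) (Term.var (Sum.inr 0)))) ⊔
      ((Term.var (Sum.inl (Sum.inr 0))).equal
        (tpl (tpl (Term.var (Sum.inr 0)) (Term.var (Sum.inr 0))) ton))))

theorem r1 : M ⊨ s1 ↔ ∀ x y : M, pl x x = pl y y → x = y := by
  unfold s1 Sentence.Realize
  rw [Formula.realize_iAlls]
  simp only [Formula.realize_imp, Formula.realize_equal, realize_tpl, Term.realize_var,
    Sum.elim_inr]
  exact ⟨fun h x y => h ![x, y], fun h i => h (i 0) (i 1)⟩

theorem r2 : M ⊨ s2 ↔ ∀ x y : M, ¬ pl x x = pl (pl y y) (on M) := by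
  unfold s2 Sentence.Realize
  rw [Formula.realize_iAlls]
  simp only [Formula.realize_not, Formula.realize_equal, realize_tpl, realize_ton,
    Term.realize_var, Sum.elim_inr]
  exact ⟨fun h x y => h ![x, y], fun h i => h (i 0) (i 1)⟩

theorem r3 : M ⊨ s3 ↔ ∀ x y : M, pl (pl x x) (on M) = pl (pl y y) (on M) → x = y := by
  unfold s3 Sentence.Realize
  rw [Formula.realize_iAlls]
  simp only [Formula.realize_imp, Formula.realize_equal, realize_tpl, realize_ton,
    Term.realize_var, Sum.elim_inr]
  exact ⟨fun h x y => h ![x, y], fun h i => h (i 0) (i 1)⟩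

theorem r4 : M ⊨ s4 ↔ ∀ x : M, ∃ y, x = pl y y ∨ x = pl (pl y y) (on M) := by
  unfold s4 Sentence.Realize
  rw [Formula.realize_iAlls]
  simp only [Formula.realize_iExs, Formula.realize_sup, Formula.realize_equal, realize_tpl,
    realize_ton, Term.realize_var, Sum.elim_inr, Sum.elim_inl]
  constructor
  · intro h x
    obtain ⟨i, hi⟩ := h ![x]
    exact ⟨i 0, hi⟩
  · intro h i
    obtain ⟨y, hy⟩ := h (i 0)
    exact ⟨![y], hy⟩

theorem pl_int (x y : ℤ) : pl x y = x + y := rfl

theorem on_int : on ℤ = 1 := rfl

theorem transfer (hM : M ⊨ TSqf) (s : sqfLang.Sentence) (hs : ℤ ⊨ s) : M ⊨ s :=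
  hM.realize_of_mem s hs

/-- No model of `T_Sqf` is MS-measurable. -/
theorem not_meas (hM : M ⊨ TSqf) : ¬ MSMeasurable sqfLang M := by
  have h1 := r1.1 (transfer hM s1 (r1.2 fun x y h => by
    rw [pl_int, pl_int] at h
    omega))
  have h2 := r2.1 (transfer hM s2 (r2.2 fun x y h => by
    rw [pl_int, pl_int, pl_int, on_int] at h
    omega))
  have h3 := r3.1 (transfer hM s3 (r3.2 fun x y h => by
    rw [pl_int, pl_int, pl_int, pl_int, on_int] at h
    omega))
  have h4 := r4.1 (transfer hM s4 (r4.2 fun x => by
    rcases Int.even_or_odd' x with ⟨y, rfl | rfl⟩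
    · refine ⟨y, Or.inl ?_⟩
      rw [pl_int]
      ring
    · refine ⟨y, Or.inr ?_⟩
      rw [pl_int, pl_int, on_int]
      ring))
  have : Nonempty M := ⟨on M⟩
  let f : (Fin 1 → M) → (Fin 1 → M) := fun x _ => pl (x 0) (x 0)
  let g : (Fin 1 → M) → (Fin 1 → M) := fun x _ => pl (pl (x 0) (x 0)) (on M)
  have hdef : ∀ (t : sqfLang.Term (Fin 1)) (F : (Fin 1 → M) → (Fin 1 → M)),
      (∀ x, t.realize x = F x 0) → DefinableOnto sqfLang M univ (range F) F := by
    intro t F ht
    refine ⟨Set.definable_univ, ?_, ?_, ?_⟩
    · have := definable_plain (M := M) (Formula.iExs (α := Fin 1) (Fin 1)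
        ((t.relabel Sum.inr).equal (Term.var (Sum.inl 0))))
      convert this using 1
      ext y
      change y ∈ range F ↔ Formula.Realize _ y
      rw [Formula.realize_iExs]
      simp only [Formula.realize_equal, Term.realize_relabel, Term.realize_var, Sum.elim_inl]
      constructor
      · rintro ⟨x, rfl⟩
        refine ⟨x, ?_⟩
        exact ht x
      · rintro ⟨x, hx⟩
        refine ⟨x, ?_⟩
        ext i
        have hi : i = 0 := Subsingleton.elim _ _
        rw [hi, ← hx]
        exact (ht x).symm
    · exact image_univ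
    · have := definable_plain (M := M)
        ((t.relabel (Sum.inl : Fin 1 → Fin 1 ⊕ Fin 1)).equal (Term.var (Sum.inr 0)))
      convert this using 1
      ext z
      change ((fun i => z (Sum.inl i)) ∈ univ ∧ F (fun i => z (Sum.inl i)) =
        fun j => z (Sum.inr j)) ↔ Formula.Realize _ z
      simp only [Formula.realize_equal, Term.realize_relabel, Term.realize_var, mem_univ, true_and]
      rw [show (z ∘ Sum.inl) = fun i => z (Sum.inl i) from rfl, ht]
      constructor
      · intro h
        exact congrFun h 0
      · intro h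
        ext i
        have hi : i = 0 := Subsingleton.elim _ _
        rw [hi]
        exact h
  refine not_measurable (E := range f) (O := range g) (f := f) (g := g)
    (hdef (tpl (Term.var 0) (Term.var 0)) f fun x => by rw [realize_tpl]; rfl)
    (hdef (tpl (tpl (Term.var 0) (Term.var 0)) ton) g fun x => by
      rw [realize_tpl, realize_tpl, realize_ton]; rfl) ?_ ?_ ?_ ?_
  · intro x y hxy
    ext i
    have hi : i = 0 := Subsingleton.elim _ _
    rw [hi]
    exact h1 _ _ (congrFun hxy 0)
  · intro x y hxy
    ext i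
    have hi : i = 0 := Subsingleton.elim _ _
    rw [hi]
    exact h3 _ _ (congrFun hxy 0)
  · rw [Set.disjoint_left]
    rintro _ ⟨x, rfl⟩ ⟨y, hy⟩
    exact h2 _ _ (congrFun hy 0).symm
  · ext x
    simp only [mem_union, mem_range, mem_univ, iff_true]
    obtain ⟨y, hy | hy⟩ := h4 (x 0)
    · left
      refine ⟨fun _ => y, ?_⟩
      ext i
      have hi : i = 0 := Subsingleton.elim _ _
      rw [hi, hy]
    · right
      refine ⟨fun _ => y, ?_⟩
      ext i
      have hi : i = 0 := Subsingleton.elim _ _
      rw [hi, hy]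

end model

end Pool.Agent.X223.MS
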